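import Pool.Agent.TH502.FA.GeomN

/-!
# Stokes' formula for sums of products of differentials of Lipschitz functions
-/

set_option autoImplicit false

open Finset Real MeasureTheory Filter Topology Set
open scoped ENNReal

namespace Pool.Agent.Q183.MDL

open Pool.Agent.H115R3.Filling Pool.Agent.W664.Fill

theorem ofReal_sum_le {ι : Type} (s : Finset ι) (a : ι → ℝ) :
    ENNReal.ofReal (∑ i ∈ s, a i) ≤ ∑ i ∈ s, ENNReal.ofReal (a i) := by
  classical
  induction s using Finset.induction_on with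
  | empty => simp
  | insert i s hi ih =>
    rw [Finset.sum_insert hi, Finset.sum_insert hi]
    exact ENNReal.ofReal_add_le.trans (add_le_add le_rfl ih)

theorem ofReal_int_le {f : ℝ × ℝ → ℝ} {μ : Measure (ℝ × ℝ)} (hf : Integrable f μ) :
    ENNReal.ofReal (∫ x, f x ∂μ) ≤ ∫⁻ x, ENNReal.ofReal (f x) ∂μ := by
  have h1 : ∫ x, f x ∂μ ≤ ∫ x, max (f x) 0 ∂μ :=
    integral_mono hf hf.pos_part fun x => le_max_left _ _
  refine (ENNReal.ofReal_le_ofReal h1).trans ?_
  rw [ofReal_integral_eq_lintegral_ofReal hf.pos_part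
    (Filter.Eventually.of_forall fun x => le_max_right _ _)]
  apply lintegral_mono
  intro x
  simp only
  rw [ENNReal.ofReal_max, ENNReal.ofReal_zero]
  simp

/-- The discretised integral converges, and the positive part of its limit is at most the upper
integral of the Jacobian. -/
theorem square_limit_e (g : RiemMetric) {ι : Type} (P : Finset ι) (c : ι → ℝ)
    (u w : ι → ℝ × ℝ → ℝ) (hu : ∀ i, SegLip g (u i)) (hw : ∀ i, SegLip g (w i)) :
    ∃ L : ℝ, ENNReal.ofReal L ≤ ∫⁻ p in Sqo, ENNReal.ofReal (∑ i ∈ P, c i * jac (u i) (w i) p) ∧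
      Tendsto (fun n : ℕ => ∑ i ∈ P, c i *
      ∑ q ∈ (range n ×ˢ range n : Finset (ℕ × ℕ)), cellSum (u i) (w i) n q.1 q.2)
      atTop (𝓝 L) := by
  obtain ⟨C, hC0, hC⟩ := g.exists_bound
  have hAl : ∀ k, ∀ p ∈ Sq, ∀ q ∈ Sq, |u k q - u k p| ≤ C * ‖q - p‖ :=
    fun k p hp q hq => (hu k).lipschitz hC hp hq
  have hBl : ∀ k, ∀ p ∈ Sq, ∀ q ∈ Sq, |w k q - w k p| ≤ C * ‖q - p‖ :=
    fun k p hp q hq => (hw k).lipschitz hC hp hq
  have hrestr : volume.restrict Sqh = volume.restrict Sqo :=
    Measure.restrict_congr_set Sqh_ae_eq_Sqo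
  have hSqhm : MeasurableSet Sqh := measurableSet_Ico.prod measurableSet_Ico
  have hlim : ∀ k, ∀ᵐ x ∂(volume.restrict Sqh),
      Tendsto (fun n => Qf (u k) (w k) n x) atTop (𝓝 (jac (u k) (w k) x)) := by
    intro k
    rw [hrestr]
    filter_upwards [(hu k).ae_diff, (hw k).ae_diff,
      self_mem_ae_restrict isOpen_Sqo.measurableSet] with x hx1 hx2 hxS
    exact tendsto_Qf hxS hx1 hx2
  have hbound : ∀ k, ∀ n : ℕ, 0 < n → ∀ᵐ x ∂(volume.restrict Sqh),
      ‖Qf (u k) (w k) n x‖ ≤ C ^ 2 := by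
    intro k n hn
    filter_upwards [self_mem_ae_restrict hSqhm] with x hx
    exact Qf_bound hC0 (hAl k) (hBl k) hn hx
  have hfin : IsFiniteMeasure (volume.restrict Sqh) := by
    rw [Measure.restrict_congr_set Sqh_ae_eq_Sq]
    exact ⟨by rw [Measure.restrict_apply_univ]; exact isCompact_Sq.measure_lt_top⟩
  have hconst : Integrable (fun _ : ℝ × ℝ => C ^ 2) (volume.restrict Sqh) :=
    integrable_const _
  have hint : ∀ k, Tendsto (fun n : ℕ => ∫ x in Sqh, Qf (u k) (w k) n x) atTop
      (𝓝 (∫ x in Sqh, jac (u k) (w k) x)) := by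
    intro k
    refine tendsto_integral_filter_of_dominated_convergence (fun _ => C ^ 2) ?_ ?_ hconst
      (hlim k)
    · exact Eventually.of_forall fun n => (measurable_Qf _ _ n).aestronglyMeasurable
    · filter_upwards [eventually_gt_atTop 0] with n hn using hbound k n hn
  have hJmeas : ∀ k, AEStronglyMeasurable (jac (u k) (w k)) (volume.restrict Sqh) := fun k =>
    aestronglyMeasurable_of_tendsto_ae atTop
      (fun n => (measurable_Qf (u k) (w k) n).aestronglyMeasurable) (hlim k)
  have hJint : ∀ k, Integrable (jac (u k) (w k)) (volume.restrict Sqh) := by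
    intro k
    refine hconst.mono' (hJmeas k) ?_
    have hall : ∀ᵐ x ∂(volume.restrict Sqh), ∀ n : ℕ, 0 < n →
        ‖Qf (u k) (w k) n x‖ ≤ C ^ 2 := by
      rw [ae_all_iff]
      intro n
      by_cases hn : 0 < n
      · filter_upwards [hbound k n hn] with x hx _ using hx
      · exact Eventually.of_forall fun x h => absurd h hn
    filter_upwards [hlim k, hall] with x hx hx2
    refine le_of_tendsto hx.norm ?_
    filter_upwards [eventually_gt_atTop 0] with n hn using hx2 n hn
  refine ⟨∑ k ∈ P, c k * ∫ x in Sqh, jac (u k) (w k) x, ?_, ?_⟩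
  · have h1 : ∑ k ∈ P, c k * ∫ x in Sqh, jac (u k) (w k) x
        = ∫ x in Sqh, ∑ k ∈ P, c k * jac (u k) (w k) x := by
      rw [integral_finsetSum P (fun k _ => (hJint k).const_mul (c k))]
      apply Finset.sum_congr rfl
      intro k _
      rw [integral_const_mul]
    rw [h1, ← hrestr]
    exact ofReal_int_le (integrable_finsetSum P (fun k _ => (hJint k).const_mul (c k)))
  · have h1 : Tendsto (fun n : ℕ => ∑ k ∈ P, c k * ∫ x in Sqh, Qf (u k) (w k) n x) atTop
        (𝓝 (∑ k ∈ P, c k * ∫ x in Sqh, jac (u k) (w k) x)) :=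
      tendsto_finsetSum P (fun k _ => (hint k).const_mul (c k))
    refine h1.congr' ?_
    filter_upwards [eventually_gt_atTop 0] with n hn
    apply Finset.sum_congr rfl
    intro k _
    rw [integral_Qf _ _ hn]

section

variable {M : Type} [MetricSpace M] (S : OrientedSurface M)

theorem segLip_of (V : M → ℝ) (hV : ∀ x y, |V x - V y| ≤ dist x y) (k : Fin S.faces) :
    SegLip (S.metric k) (fun p => V (S.chart k p)) := by
  intro p hp q hq
  refine (hV _ _).trans ?_
  rw [dist_comm]
  exact S.dist_le k p hp q hq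

/-- The flux through the boundary is at most the sum of the upper integrals of the Jacobians. -/
theorem cal_e {ι : Type}
    (P : Finset ι) (c : ι → ℝ) (U W : ι → M → ℝ)
    (hU : ∀ i x y, |U i x - U i y| ≤ dist x y) (hW : ∀ i x y, |W i x - W i y| ≤ dist x y)
    (L : ℝ) (hL : Tendsto (fun n : ℕ => ∑ i ∈ P, c i * (loopSum S.brk
      (fun t => U i (S.boundary (t : AddCircle (2 * π))))
      (fun t => W i (S.boundary (t : AddCircle (2 * π)))) n / 2)) atTop (𝓝 L)) :
    ENNReal.ofReal L ≤ ∑ k, ∫⁻ p in Sqo, ENNReal.ofReal (∑ i ∈ P, c i *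
      jac (fun p => U i (S.chart k p)) (fun p => W i (S.chart k p)) p) := by
  have hlim := fun k => square_limit_e (S.metric k) P c (fun i p => U i (S.chart k p))
    (fun i p => W i (S.chart k p)) (fun i => segLip_of S _ (hU i) k)
    (fun i => segLip_of S _ (hW i) k)
  choose L' hL1 hL2 using hlim
  have hsum : Tendsto (fun n : ℕ => ∑ k, ∑ i ∈ P, c i *
      ∑ q ∈ (Finset.range n ×ˢ Finset.range n : Finset (ℕ × ℕ)),
        cellSum (fun p => U i (S.chart k p)) (fun p => W i (S.chart k p)) n q.1 q.2)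
      atTop (𝓝 (∑ k, L' k)) :=
    tendsto_finsetSum _ (fun k _ => hL2 k)
  have hLle : ENNReal.ofReal (∑ k, L' k) ≤ ∑ k, ∫⁻ p in Sqo, ENNReal.ofReal (∑ i ∈ P, c i *
      jac (fun p => U i (S.chart k p)) (fun p => W i (S.chart k p)) p) :=
    (ofReal_sum_le _ _).trans (Finset.sum_le_sum (fun k _ => hL1 k))
  refine le_trans (le_of_eq ?_) hLle
  congr 1
  refine tendsto_nhds_unique (hL.congr' ?_) hsum
  filter_upwards [eventually_gt_atTop 0] with n hn
  rw [Finset.sum_comm]
  apply Finset.sum_congr rfl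
  intro i _
  rw [← Finset.mul_sum]
  congr 1
  have e1 : ∀ k, ∑ q ∈ (Finset.range n ×ˢ Finset.range n : Finset (ℕ × ℕ)),
      cellSum (fun p => U i (S.chart k p)) (fun p => W i (S.chart k p)) n q.1 q.2
      = (∑ s : Fin 4, edge (fun t => U i (S.chart k (side s t)))
          (fun t => W i (S.chart k (side s t))) n) / 2 :=
    fun k => cells_eq _ _ hn
  simp_rw [e1]
  rw [← Finset.sum_div]
  congr 1
  have e2 := sum_sides S (U i) (W i) n
  rw [← Finset.univ_product_univ, Finset.sum_product] at e2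
  simp only at e2
  rw [e2]

end

end Pool.Agent.Q183.MDL
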