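import Mathlib

/-!
# The length of a closed polygon in the unit disc whose projections have few waves
-/

set_option autoImplicit false

open Finset Real MeasureTheory Set

namespace Pool.Agent.Q183.MDL

theorem int_abs_cos : ∫ x in (0 : ℝ)..(2 * π), |cos x| = 4 := by
  have hper : Function.Periodic (fun x : ℝ => |cos x|) (2 * π) := fun x => by
    simp only [cos_add_two_pi]
  have h1 := hper.intervalIntegral_add_eq 0 (-(π / 2))
  rw [zero_add] at h1
  rw [h1]
  have hc : Continuous fun x : ℝ => |cos x| := continuous_cos.abs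
  have h2 : ∫ x in (-(π / 2))..(-(π / 2) + 2 * π), |cos x|
      = (∫ x in (-(π / 2))..(π / 2), |cos x|) + ∫ x in (π / 2)..(-(π / 2) + 2 * π), |cos x| :=
    (intervalIntegral.integral_add_adjacent_intervals (hc.intervalIntegrable _ _)
      (hc.intervalIntegrable _ _)).symm
  rw [h2]
  have h3 : ∫ x in (-(π / 2))..(π / 2), |cos x| = ∫ x in (-(π / 2))..(π / 2), cos x := by
    apply intervalIntegral.integral_congr
    intro x hx
    rw [Set.uIcc_of_le (by linarith [pi_pos])] at hx
    exact abs_of_nonneg (cos_nonneg_of_mem_Icc hx)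
  have h4 : ∫ x in (π / 2)..(-(π / 2) + 2 * π), |cos x|
      = ∫ x in (π / 2)..(-(π / 2) + 2 * π), -cos x := by
    apply intervalIntegral.integral_congr
    intro x hx
    rw [Set.uIcc_of_le (by linarith [pi_pos])] at hx
    have : cos x ≤ 0 := by
      apply cos_nonpos_of_pi_div_two_le_of_le hx.1
      have := hx.2
      linarith
    exact abs_of_nonpos this
  rw [h3, h4, intervalIntegral.integral_neg, integral_cos, integral_cos]
  have e1 : sin (-(π / 2) + 2 * π) = -1 := by
    rw [sin_add_two_pi, sin_neg, sin_pi_div_two]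
  rw [e1, sin_neg, sin_pi_div_two]
  norm_num

/-- The length of a vector is a quarter of the integral of the lengths of its projections. -/
theorem crofton (a b : ℝ) :
    ∫ x in (0 : ℝ)..(2 * π), |a * cos x + b * sin x| = 4 * √(a ^ 2 + b ^ 2) := by
  set z : ℂ := ⟨a, b⟩ with hz
  have hr : ‖z‖ = √(a ^ 2 + b ^ 2) := by
    rw [Complex.norm_def, Complex.normSq_apply]
    simp only [hz]
    congr 1
    ring
  have ha : a = ‖z‖ * cos z.arg := by
    rw [Complex.norm_mul_cos_arg]
  have hb : b = ‖z‖ * sin z.arg := by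
    rw [Complex.norm_mul_sin_arg]
  have h1 : ∀ x : ℝ, |a * cos x + b * sin x| = ‖z‖ * |cos (x - z.arg)| := by
    intro x
    rw [cos_sub]
    nth_rw 1 [ha, hb]
    rw [← abs_of_nonneg (norm_nonneg z), ← abs_mul, abs_of_nonneg (norm_nonneg z)]
    congr 1
    ring
  simp_rw [h1]
  rw [intervalIntegral.integral_const_mul,
    intervalIntegral.integral_comp_sub_right (fun x => |cos x|)]
  have hper : Function.Periodic (fun x : ℝ => |cos x|) (2 * π) := fun x => by
    simp only [cos_add_two_pi]
  have h2 := hper.intervalIntegral_add_eq (0 - z.arg) 0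
  rw [zero_add, int_abs_cos] at h2
  rw [show 2 * π - z.arg = 0 - z.arg + 2 * π by ring, h2, hr]
  ring

theorem int_ind {a b : ℝ} (ha : -1 ≤ a) (hb : b ≤ 1) :
    ∫ c in (-1 : ℝ)..1, (Set.Ioo a b).indicator (fun _ => (1 : ℝ)) c = max (b - a) 0 := by
  rw [intervalIntegral.integral_of_le (by norm_num), setIntegral_indicator measurableSet_Ioo,
    setIntegral_const]
  have h1 : Set.Ioc (-1 : ℝ) 1 ∩ Set.Ioo a b = Set.Ioo a b := by
    apply Set.inter_eq_right.2
    intro x hx
    exact ⟨lt_of_le_of_lt ha hx.1, (hx.2.le).trans hb⟩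
  rw [h1, Real.volume_real_Ioo, smul_eq_mul, mul_one]

theorem ind_int (a b : ℝ) :
    IntervalIntegrable ((Set.Ioo a b).indicator (fun _ => (1 : ℝ))) volume (-1) 1 := by
  rw [intervalIntegrable_iff]
  refine IntegrableOn.indicator ?_ measurableSet_Ioo
  rw [← intervalIntegrable_iff]
  exact intervalIntegrable_const

/-- The total variation of a closed sequence in `[-1, 1]` which crosses each level at most `k`
times upwards. -/
theorem tv_le (m k : ℕ) (y : ℕ → ℝ) (hm : y m = y 0) (h1 : ∀ i, |y i| ≤ 1)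
    (hk : ∀ c : ℝ, ((range m).filter fun i => y i < c ∧ c < y (i + 1)).card ≤ k) :
    ∑ i ∈ range m, |y (i + 1) - y i| ≤ 4 * k := by
  have h0 : ∑ i ∈ range m, (y (i + 1) - y i) = 0 := by
    rw [Finset.sum_range_sub, hm, sub_self]
  have h2 : ∑ i ∈ range m, |y (i + 1) - y i| = 2 * ∑ i ∈ range m, max (y (i + 1) - y i) 0 := by
    have : ∀ i ∈ range m, |y (i + 1) - y i| = 2 * max (y (i + 1) - y i) 0 - (y (i + 1) - y i) := by
      intro i _
      rcases le_total 0 (y (i + 1) - y i) with h | h
      · rw [abs_of_nonneg h, max_eq_left h]; ring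
      · rw [abs_of_nonpos h, max_eq_right h]; ring
    rw [Finset.sum_congr rfl this, Finset.sum_sub_distrib, h0, sub_zero, Finset.mul_sum]
  have h3 : ∑ i ∈ range m, max (y (i + 1) - y i) 0
      = ∫ c in (-1 : ℝ)..1, ∑ i ∈ range m,
        (Set.Ioo (y i) (y (i + 1))).indicator (fun _ => (1 : ℝ)) c := by
    rw [intervalIntegral.integral_finsetSum fun i _ => ind_int _ _]
    apply Finset.sum_congr rfl
    intro i _
    rw [int_ind (abs_le.1 (h1 i)).1 (abs_le.1 (h1 (i + 1))).2]
  have h4 : ∀ c : ℝ, ∑ i ∈ range m, (Set.Ioo (y i) (y (i + 1))).indicator (fun _ => (1 : ℝ)) c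
      ≤ k := by
    intro c
    have e : ∑ i ∈ range m, (Set.Ioo (y i) (y (i + 1))).indicator (fun _ => (1 : ℝ)) c
        = (((range m).filter fun i => y i < c ∧ c < y (i + 1)).card : ℝ) := by
      rw [Finset.card_filter, Nat.cast_sum]
      apply Finset.sum_congr rfl
      intro i _
      by_cases h : y i < c ∧ c < y (i + 1)
      · rw [Set.indicator_of_mem (show c ∈ Set.Ioo (y i) (y (i + 1)) from h), if_pos h]
        simp
      · rw [Set.indicator_of_notMem (show c ∉ Set.Ioo (y i) (y (i + 1)) from h), if_neg h]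
        simp
    rw [e]
    exact_mod_cast hk c
  have h5 : ∫ c in (-1 : ℝ)..1, ∑ i ∈ range m,
        (Set.Ioo (y i) (y (i + 1))).indicator (fun _ => (1 : ℝ)) c ≤ ∫ _c in (-1 : ℝ)..1, (k : ℝ) := by
    apply intervalIntegral.integral_mono_on (by norm_num)
    · have h6 := IntervalIntegrable.sum (range m) (f := fun i =>
        (Set.Ioo (y i) (y (i + 1))).indicator (fun _ => (1 : ℝ))) fun i _ => ind_int _ _
      have h7 : (fun u => ∑ i ∈ Finset.range m,
          (Set.Ioo (y i) (y (i + 1))).indicator (fun _ => (1 : ℝ)) u)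
          = ∑ i ∈ range m, (Set.Ioo (y i) (y (i + 1))).indicator (fun _ => (1 : ℝ)) := by
        funext c
        rw [Finset.sum_apply]
      rw [h7]
      exact h6
    · exact intervalIntegrable_const
    · intro c _
      exact h4 c
  rw [h2, h3]
  rw [intervalIntegral.integral_const, smul_eq_mul] at h5
  linarith

/-- The cross products of a closed polygon in the unit disc. -/
theorem cross_le (m k : ℕ) (X Y : ℕ → ℝ) (hX : X m = X 0) (hY : Y m = Y 0)
    (h1 : ∀ i, X i ^ 2 + Y i ^ 2 ≤ 1)
    (hk : ∀ p q : ℝ, p ^ 2 + q ^ 2 = 1 → ∀ c : ℝ, ((range m).filter fun i =>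
      X i * p + Y i * q < c ∧ c < X (i + 1) * p + Y (i + 1) * q).card ≤ k) :
    ∑ i ∈ range m, (X (i + 1) * Y i - Y (i + 1) * X i) ≤ 2 * π * k := by
  have hle : ∀ i ∈ range m, X (i + 1) * Y i - Y (i + 1) * X i
      ≤ √((X (i + 1) - X i) ^ 2 + (Y (i + 1) - Y i) ^ 2) := by
    intro i _
    apply Real.le_sqrt_of_sq_le
    have e : X (i + 1) * Y i - Y (i + 1) * X i
        = (X (i + 1) - X i) * Y i - (Y (i + 1) - Y i) * X i := by ring
    rw [e]
    have h2 := h1 i
    nlinarith [sq_nonneg ((X (i + 1) - X i) * X i + (Y (i + 1) - Y i) * Y i),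
      sq_nonneg (X (i + 1) - X i), sq_nonneg (Y (i + 1) - Y i)]
  refine (Finset.sum_le_sum hle).trans ?_
  have h2 : ∀ i ∈ range m, √((X (i + 1) - X i) ^ 2 + (Y (i + 1) - Y i) ^ 2)
      = (∫ x in (0 : ℝ)..(2 * π), |(X (i + 1) - X i) * cos x + (Y (i + 1) - Y i) * sin x|) / 4 := by
    intro i _
    rw [crofton]
    ring
  rw [Finset.sum_congr rfl h2, ← Finset.sum_div]
  have hcont : ∀ i, Continuous fun x : ℝ =>
      |(X (i + 1) - X i) * cos x + (Y (i + 1) - Y i) * sin x| := by
    intro i
    fun_prop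
  rw [← intervalIntegral.integral_finsetSum fun i _ => (hcont i).intervalIntegrable _ _]
  have h3 : ∫ x in (0 : ℝ)..(2 * π), ∑ i ∈ range m,
      |(X (i + 1) - X i) * cos x + (Y (i + 1) - Y i) * sin x|
      ≤ ∫ _x in (0 : ℝ)..(2 * π), (4 * k : ℝ) := by
    apply intervalIntegral.integral_mono_on (by positivity)
    · exact (continuous_finsetSum _ fun i _ => hcont i).intervalIntegrable _ _
    · exact intervalIntegrable_const
    · intro x _
      have h4 := tv_le m k (fun i => X i * cos x + Y i * sin x) (by rw [hX, hY])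
        (fun i => ?_) (fun c => hk (cos x) (sin x) (cos_sq_add_sin_sq x) c)
      · refine le_trans (le_of_eq ?_) h4
        apply Finset.sum_congr rfl
        intro i _
        congr 1
        ring
      · rw [← sq_le_one_iff_abs_le_one]
        have h5 := h1 i
        have h6 := cos_sq_add_sin_sq x
        nlinarith [sq_nonneg (X i * sin x - Y i * cos x)]
  rw [intervalIntegral.integral_const, smul_eq_mul] at h3
  linarith

end Pool.Agent.Q183.MDL
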