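import Pool.Agent.Q183.MDL.A
import Pool.Agent.Q183.MDL.B

/-!
# Waves and the modality of a family of functions at a point
-/

set_option autoImplicit false

open Finset Real MeasureTheory Filter Topology Set
open scoped ENNReal

namespace Pool.Agent.Q183.MDL

open Pool.Agent.H115R3.Filling Pool.Agent.W664.Fill

/-- The function `g` on the circle of length `2π` has `n` waves at level `c`: there are `n` disjoint
arcs `[a i, b i]`, in this order along the circle, with `g (a i) < c < g (b i)`. -/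
def Waves (g : AddCircle (2 * π) → ℝ) (c : ℝ) (n : ℕ) : Prop :=
  ∃ a b : Fin n → ℝ, (∀ i, a i < b i) ∧ (∀ i j, i < j → b i < a j) ∧
    (∀ i j, b i < a j + 2 * π) ∧
    ∀ i, g (a i : AddCircle (2 * π)) < c ∧ c < g (b i : AddCircle (2 * π))

/-- The modality at `q` of a family of functions `f θ`, where `θ` runs over the circle of length
`2π`: the least number `k`, possibly infinite, such that for all `q'` sufficiently near `q` the
function `θ ↦ f θ q' - f θ q` on the circle has at most `k` waves at each level. -/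
noncomputable def modality {M : Type} [TopologicalSpace M] (f : AddCircle (2 * π) → M → ℝ)
    (q : M) : ℕ∞ :=
  ⨅ U ∈ 𝓝 q, ⨆ n ∈ {n : ℕ | ∃ q' ∈ U, ∃ c : ℝ, Waves (fun θ => f θ q' - f θ q) c n}, (n : ℕ∞)

theorem waves_of (m : ℕ) {δ : ℝ} (hδ : 0 < δ) (hm : m * δ = 2 * π) (y : ℕ → ℝ) (hy : y m = y 0)
    (c : ℝ) (g : AddCircle (2 * π) → ℝ) (c' : ℝ)
    (h1 : ∀ i ≤ m, y i < c → g (((i : ℝ) * δ : ℝ) : AddCircle (2 * π)) < c')
    (h2 : ∀ i ≤ m, c < y i → c' < g (((i : ℝ) * δ : ℝ) : AddCircle (2 * π))) :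
    Waves g c' ((range m).filter fun i => y i < c ∧ c < y (i + 1)).card := by
  classical
  set s : Finset ℕ := (range m).filter fun i => y i < c ∧ c < y (i + 1) with hs
  set e := s.orderEmbOfFin rfl with he
  have hmem : ∀ j, e j < m ∧ y (e j) < c ∧ c < y (e j + 1) := by
    intro j
    have h3 : e j ∈ s := s.orderEmbOfFin_mem rfl j
    have h4 := Finset.mem_filter.1 h3
    exact ⟨Finset.mem_range.1 h4.1, h4.2⟩
  refine ⟨fun j => (e j : ℝ) * δ, fun j => ((e j + 1 : ℕ) : ℝ) * δ, ?_, ?_, ?_, ?_⟩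
  · intro j
    simp only
    push_cast
    nlinarith
  · intro i j hij
    have h3 : e i < e j := e.lt_iff_lt.2 hij
    have h4 : e i + 1 ≠ e j := by
      intro h
      have h5 := (hmem i).2.2
      rw [h] at h5
      exact absurd (hmem j).2.1 (not_lt.2 h5.le)
    have h5 : e i + 1 < e j := lt_of_le_of_ne h3 h4
    simp only
    exact mul_lt_mul_of_pos_right (by exact_mod_cast h5) hδ
  · intro i j
    have h4 : e i + 1 ≠ e j + m := by
      intro h
      have h6 := (hmem i).1
      have h7 : e j = 0 := by omega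
      have h8 : e i + 1 = m := by omega
      have h5 := (hmem i).2.2
      rw [h8, hy] at h5
      have h9 := (hmem j).2.1
      rw [h7] at h9
      exact absurd h9 (not_lt.2 h5.le)
    have h5 : e i + 1 < e j + m := by
      have h6 := (hmem i).1
      omega
    simp only
    rw [← hm, ← add_mul]
    exact mul_lt_mul_of_pos_right (by exact_mod_cast h5) hδ
  · intro j
    have h3 := hmem j
    exact ⟨h1 _ h3.1.le h3.2.1, h2 _ h3.1 h3.2.2⟩

section

variable {M : Type} [MetricSpace M] (S : OrientedSurface M)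

theorem chart_tendsto (k : Fin S.faces) {x : ℝ × ℝ} (hx : x ∈ Sqo) (v : ℝ × ℝ) :
    Tendsto (fun t : ℝ => S.chart k (x + t • v)) (𝓝[>] 0) (𝓝 (S.chart k x)) := by
  obtain ⟨C, hC0, hC⟩ := (S.metric k).exists_bound
  have hV : ∀ y z : M, |dist (S.chart k x) y - dist (S.chart k x) z| ≤ dist y z := by
    intro y z
    rw [dist_comm (S.chart k x) y, dist_comm (S.chart k x) z]
    exact abs_dist_sub_le y z (S.chart k x)
  have h1 := segLip_of S (fun y => dist (S.chart k x) y) hV k
  have hxS : x ∈ Sq := Sqo_sub hx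
  have hx0 : Tendsto (fun t : ℝ => x + t • v) (𝓝[>] 0) (𝓝 x) := by
    have : Tendsto (fun t : ℝ => x + t • v) (𝓝 0) (𝓝 (x + (0 : ℝ) • v)) :=
      (Continuous.tendsto (by fun_prop) 0)
    rw [zero_smul, add_zero] at this
    exact this.mono_left nhdsWithin_le_nhds
  rw [tendsto_iff_dist_tendsto_zero]
  have h2 : Tendsto (fun t : ℝ => C * ‖(x + t • v) - x‖) (𝓝[>] 0) (𝓝 0) := by
    have h3 : Tendsto (fun t : ℝ => C * ‖(x + t • v) - x‖) (𝓝[>] 0) (𝓝 (C * ‖x - x‖)) :=
      ((hx0.sub_const x).norm).const_mul C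
    simpa using h3
  refine squeeze_zero' (Filter.Eventually.of_forall fun t => dist_nonneg) ?_ h2
  filter_upwards [hx0.eventually (isOpen_Sqo.mem_nhds hx)] with t ht
  have h4 := h1.lipschitz hC hxS (Sqo_sub ht)
  simp only [dist_self, sub_zero] at h4
  rw [dist_comm]
  exact (le_abs_self _).trans h4

/-- The waves of the derivatives are bounded by the modality. -/
theorem waves_deriv (f : AddCircle (2 * π) → M → ℝ) (k : Fin S.faces) {x : ℝ × ℝ} (hx : x ∈ Sqo)
    (m : ℕ) {δ : ℝ} (hδ : 0 < δ) (hm : m * δ = 2 * π)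
    (hd : ∀ i : ℕ, DifferentiableAt ℝ
      (fun p => f (((i : ℝ) * δ : ℝ) : AddCircle (2 * π)) (S.chart k p)) x)
    (v : ℝ × ℝ) (y : ℕ → ℝ) (hy : ∀ i : ℕ, y i =
      fderiv ℝ (fun p => f (((i : ℝ) * δ : ℝ) : AddCircle (2 * π)) (S.chart k p)) x v)
    (c : ℝ) :
    (((range m).filter fun i => y i < c ∧ c < y (i + 1)).card : ℕ∞)
      ≤ modality f (S.chart k x) := by
  unfold modality
  refine le_iInf₂ fun U hU => ?_
  have h0 : ∀ i : ℕ, Tendsto (fun t : ℝ => t⁻¹ *
      (f (((i : ℝ) * δ : ℝ) : AddCircle (2 * π)) (S.chart k (x + t • v))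
        - f (((i : ℝ) * δ : ℝ) : AddCircle (2 * π)) (S.chart k x))) (𝓝[>] 0) (𝓝 (y i)) := by
    intro i
    have h1 := ((hd i).hasFDerivAt.hasLineDerivAt v)
    have h2 := h1.tendsto_slope_zero_right
    rw [← hy i] at h2
    simpa using h2
  have hev : ∀ᶠ t : ℝ in 𝓝[>] 0, ∀ i ∈ range (m + 1),
      (y i < c → t⁻¹ *
      (f (((i : ℝ) * δ : ℝ) : AddCircle (2 * π)) (S.chart k (x + t • v))
        - f (((i : ℝ) * δ : ℝ) : AddCircle (2 * π)) (S.chart k x)) < c) ∧
      (c < y i → c < t⁻¹ *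
      (f (((i : ℝ) * δ : ℝ) : AddCircle (2 * π)) (S.chart k (x + t • v))
        - f (((i : ℝ) * δ : ℝ) : AddCircle (2 * π)) (S.chart k x))) := by
    rw [Finset.eventually_all]
    intro i _
    apply Filter.Eventually.and
    · by_cases h : y i < c
      · filter_upwards [(h0 i).eventually (gt_mem_nhds h)] with t ht _ using ht
      · exact Filter.Eventually.of_forall fun t h' => absurd h' h
    · by_cases h : c < y i
      · filter_upwards [(h0 i).eventually (lt_mem_nhds h)] with t ht _ using ht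
      · exact Filter.Eventually.of_forall fun t h' => absurd h' h
  obtain ⟨t, ⟨ht1, ht2⟩, ht0⟩ := ((hev.and ((chart_tendsto S k hx v).eventually hU)).and
    (eventually_mem_nhdsWithin (a := (0 : ℝ)) (s := Set.Ioi 0))).exists
  have ht0' : (0 : ℝ) < t := ht0
  have hper : y m = y 0 := by
    rw [hy, hy]
    have : (((m : ℝ) * δ : ℝ) : AddCircle (2 * π)) = ((((0 : ℕ) : ℝ) * δ : ℝ) : AddCircle (2 * π)) := by
      rw [hm, AddCircle.coe_period]
      simp
    rw [this]
  have hw := waves_of m hδ hm y hper c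
    (fun θ => f θ (S.chart k (x + t • v)) - f θ (S.chart k x)) (t * c)
    (fun i hi h => ?_) (fun i hi h => ?_)
  · exact le_iSup₂_of_le _ ⟨_, ht2, _, hw⟩ le_rfl
  · have h3 := (ht1 i (Finset.mem_range.2 (by omega))).1 h
    rw [inv_mul_lt_iff₀ ht0'] at h3
    exact h3
  · have h3 := (ht1 i (Finset.mem_range.2 (by omega))).2 h
    rw [lt_inv_mul_iff₀ ht0'] at h3
    exact h3

end

end Pool.Agent.Q183.MDL
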