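import Pool.Agent.Q183.MDL.C

/-!
# The local inequality
-/

set_option autoImplicit false

open Finset Real MeasureTheory Filter Topology Set
open scoped ENNReal

namespace Pool.Agent.Q183.MDL

open Pool.Agent.H115R3.Filling Pool.Agent.W664.Fill

section

variable {M : Type} [MetricSpace M] (S : OrientedSurface M)

theorem local_le (f : AddCircle (2 * π) → M → ℝ) (hf : ∀ θ x y, |f θ x - f θ y| ≤ dist x y)
    (k : Fin S.faces) {x : ℝ × ℝ} (hx : x ∈ Sqo)
    (m : ℕ) {δ : ℝ} (hδ : 0 < δ) (hm : m * δ = 2 * π)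
    (hd : ∀ i : ℕ, DifferentiableAt ℝ
      (fun p => f (((i : ℝ) * δ : ℝ) : AddCircle (2 * π)) (S.chart k p)) x) :
    ENNReal.ofReal (∑ i ∈ range m, 1 *
      jac (fun p => f (((i : ℝ) * δ : ℝ) : AddCircle (2 * π)) (S.chart k p))
        (fun p => f ((((i + 1 : ℕ) : ℝ) * δ : ℝ) : AddCircle (2 * π)) (S.chart k p)) x)
      ≤ (modality f (S.chart k x) : ℝ≥0∞) *
        (ENNReal.ofReal (2 * π) *
        ENNReal.ofReal √((S.metric k).E x * (S.metric k).G x - (S.metric k).F x ^ 2)) := by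
  have hxS : x ∈ Sq := Sqo_sub hx
  set E := (S.metric k).E x with hE
  set F := (S.metric k).F x with hF
  set G := (S.metric k).G x with hG
  have hEpos : 0 < E := (S.metric k).pos_E x hxS
  have hDet : 0 < E * G - F ^ 2 := (S.metric k).pos_det x hxS
  set Dt := √(E * G - F ^ 2) with hDt
  have hDtpos : 0 < Dt := Real.sqrt_pos.mpr hDet
  by_cases htop : modality f (S.chart k x) = ⊤
  · rw [htop]
    rw [ENat.toENNReal_top, ENNReal.top_mul]
    · exact le_top
    · have h1 : 0 < ENNReal.ofReal (2 * π) := ENNReal.ofReal_pos.2 (by positivity)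
      have h2 : 0 < ENNReal.ofReal Dt := ENNReal.ofReal_pos.2 hDtpos
      exact (ENNReal.mul_pos h1.ne' h2.ne').ne'
  obtain ⟨κ, hκ⟩ := ENat.ne_top_iff_exists.1 htop
  rw [← hκ]
  set A1 : ℕ → ℝ := fun i => fderiv ℝ
    (fun p => f (((i : ℝ) * δ : ℝ) : AddCircle (2 * π)) (S.chart k p)) x (1, 0) with hA1
  set A2 : ℕ → ℝ := fun i => fderiv ℝ
    (fun p => f (((i : ℝ) * δ : ℝ) : AddCircle (2 * π)) (S.chart k p)) x (0, 1) with hA2
  have hfd : ∀ (i : ℕ) (v w : ℝ), fderiv ℝ
    (fun p => f (((i : ℝ) * δ : ℝ) : AddCircle (2 * π)) (S.chart k p)) x (v, w)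
      = A1 i * v + A2 i * w := by
    intro i v w
    have : ((v, w) : ℝ × ℝ) = v • (1, 0) + w • (0, 1) := by simp
    rw [this, map_add, map_smul, map_smul, smul_eq_mul, smul_eq_mul]
    simp only [hA1, hA2]
    ring
  have hnorm : ∀ i, (Dt * A1 i) ^ 2 + (F * A1 i - E * A2 i) ^ 2 ≤ E * Dt ^ 2 := by
    intro i
    apply dual_bound hEpos hDet
    intro v w
    have h2 := (segLip_of S _ (hf (((i : ℝ) * δ : ℝ) : AddCircle (2 * π))) k).deriv_le hx
      (hd i) (v, w)
    rw [hfd] at h2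
    exact h2
  set r : ℝ := √E * Dt with hr
  have hrpos : 0 < r := by positivity
  have hr2 : r ^ 2 = E * Dt ^ 2 := by
    rw [hr, mul_pow, Real.sq_sqrt hEpos.le]
  set X : ℕ → ℝ := fun i => Dt * A1 i / r with hX
  set Y : ℕ → ℝ := fun i => (F * A1 i - E * A2 i) / r with hY
  have hper : (((m : ℝ) * δ : ℝ) : AddCircle (2 * π)) = ((((0 : ℕ) : ℝ) * δ : ℝ) : AddCircle (2 * π)) := by
    rw [hm, AddCircle.coe_period]
    simp
  have hA1m : A1 m = A1 0 := by
    simp only [hA1]
    rw [hper]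
  have hA2m : A2 m = A2 0 := by
    simp only [hA2]
    rw [hper]
  have hcr := cross_le m κ X Y (by simp only [hX]; rw [hA1m]) (by simp only [hY]; rw [hA1m, hA2m])
    (fun i => by
      simp only [hX, hY]
      rw [div_pow, div_pow, ← add_div, div_le_one (by positivity), hr2]
      exact hnorm i)
    (fun p q _ c => by
      have h1 := waves_deriv S f k hx m hδ hm hd ((Dt * p + F * q) / r, -(E * q) / r)
        (fun i => X i * p + Y i * q) (fun i => by
          rw [hfd]
          simp only [hX, hY]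
          ring) c
      rw [← hκ] at h1
      exact_mod_cast h1)
  have hjac : ∑ i ∈ range m, 1 *
      jac (fun p => f (((i : ℝ) * δ : ℝ) : AddCircle (2 * π)) (S.chart k p))
        (fun p => f ((((i + 1 : ℕ) : ℝ) * δ : ℝ) : AddCircle (2 * π)) (S.chart k p)) x
      = Dt * ∑ i ∈ range m, (X (i + 1) * Y i - Y (i + 1) * X i) := by
    rw [Finset.mul_sum]
    apply Finset.sum_congr rfl
    intro i _
    have h1 : jac (fun p => f (((i : ℝ) * δ : ℝ) : AddCircle (2 * π)) (S.chart k p))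
        (fun p => f ((((i + 1 : ℕ) : ℝ) * δ : ℝ) : AddCircle (2 * π)) (S.chart k p)) x
        = A1 i * A2 (i + 1) - A2 i * A1 (i + 1) := rfl
    rw [h1, one_mul]
    simp only [hX, hY]
    have h2 : Dt * A1 (i + 1) / r * ((F * A1 i - E * A2 i) / r)
        - (F * A1 (i + 1) - E * A2 (i + 1)) / r * (Dt * A1 i / r)
        = (Dt * A1 (i + 1) * (F * A1 i - E * A2 i)
          - (F * A1 (i + 1) - E * A2 (i + 1)) * (Dt * A1 i)) / r ^ 2 := by
      field_simp
    rw [h2, hr2]
    field_simp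
    ring
  rw [hjac]
  have h3 : Dt * ∑ i ∈ range m, (X (i + 1) * Y i - Y (i + 1) * X i) ≤ κ * ((2 * π) * Dt) := by
    calc Dt * ∑ i ∈ range m, (X (i + 1) * Y i - Y (i + 1) * X i) ≤ Dt * (2 * π * κ) :=
          mul_le_mul_of_nonneg_left hcr hDtpos.le
      _ = κ * ((2 * π) * Dt) := by ring
  refine (ENNReal.ofReal_le_ofReal h3).trans (le_of_eq ?_)
  rw [ENNReal.ofReal_mul (Nat.cast_nonneg _), ENNReal.ofReal_mul (by positivity),
    ENNReal.ofReal_natCast, ENat.toENNReal_coe]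

end

end Pool.Agent.Q183.MDL
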