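import Pool.Agent.Q183.MDL.D

/-!
# The flux through the boundary circle
-/

set_option autoImplicit false

open Finset Real MeasureTheory Filter Topology Set
open scoped ENNReal

namespace Pool.Agent.Q183.MDL

open Pool.Agent.H115R3.Filling Pool.Agent.W664.Fill

section

variable {n : ℕ} (hn : 0 < n)

include hn

omit hn in
theorem uM_per (M : ℕ) : uM n (M + 4 * n) = uM n M := by
  unfold uM
  rw [Nat.add_mod_right]

theorem u_grid (i q : ℕ) {x : ℝ} (hx0 : 0 ≤ x) (hx1 : x ≤ 1) :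
    rho ((i : ℝ) * (π / (2 * n)) - ((q : ℝ) + x) * (π / (2 * n)))
      = π / (2 * n) * (uM n (q + (4 * n - 1) * i) + x * ((uM n (q + (4 * n - 1) * i + 1) : ℝ)
        - uM n (q + (4 * n - 1) * i))) := by
  have hnr : (0 : ℝ) < n := by exact_mod_cast hn
  rw [← rho_grid hn _ hx0 hx1, ← rho_neg, ← rho_nat_mul _ i]
  congr 1
  have h4 : ((4 * n - 1 : ℕ) : ℝ) = 4 * n - 1 := by
    rw [Nat.cast_sub (by omega)]; push_cast; ring
  rw [Nat.cast_add, Nat.cast_mul, h4]
  field_simp
  ring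

theorem pwAff_u (i : ℕ) :
    PwAff (π / (2 * n)) (fun t => rho ((i : ℝ) * (π / (2 * n)) - t)) := by
  have hnr : (0 : ℝ) < n := by exact_mod_cast hn
  set δ : ℝ := π / (2 * n) with hδ
  have hδ0 : 0 < δ := by positivity
  intro q
  refine ⟨(uM n (q + (4 * n - 1) * i + 1) : ℝ) - uM n (q + (4 * n - 1) * i), ?_⟩
  intro s hs
  have hq := u_grid hn i q (x := 0) (le_refl _) zero_le_one
  rw [add_zero, zero_mul, add_zero] at hq
  have hx0 : 0 ≤ s / δ - q := by
    have : (q : ℝ) ≤ s / δ := by rw [le_div_iff₀ hδ0]; exact hs.1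
    linarith
  have hx1 : s / δ - q ≤ 1 := by
    have : s / δ ≤ ((q + 1 : ℕ) : ℝ) := by rw [div_le_iff₀ hδ0]; exact hs.2
    push_cast at this
    linarith
  have h1 := u_grid hn i q hx0 hx1
  have h2 : ((q : ℝ) + (s / δ - q)) * δ = s := by field_simp; ring
  rw [← hδ, h2] at h1
  rw [← hδ] at hq
  simp only
  rw [h1, hq]
  field_simp

theorem u_at (i q : ℕ) : rho ((i : ℝ) * (π / (2 * n)) - (q : ℝ) * (π / (2 * n)))
    = π / (2 * n) * uM n (q + (4 * n - 1) * i) := by
  have hq := u_grid hn i q (x := 0) (le_refl _) zero_le_one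
  rw [add_zero, zero_mul, add_zero] at hq
  exact hq

omit hn in
theorem sum_shift (H : ℕ → ℝ) (hH : ∀ M, H (M + 4 * n) = H M) (s : ℕ) :
    ∑ q ∈ range (4 * n), H (q + s) = ∑ q ∈ range (4 * n), H q := by
  induction s with
  | zero => simp
  | succ s ih =>
    rw [← ih]
    have h1 : ∑ q ∈ range (4 * n), H (q + (s + 1)) - ∑ q ∈ range (4 * n), H (q + s)
        = H (4 * n + s) - H (0 + s) := by
      rw [← Finset.sum_sub_distrib]
      have := Finset.sum_range_sub (fun q => H (q + s)) (4 * n)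
      rw [← this]
      apply Finset.sum_congr rfl
      intro q _
      rw [show q + (s + 1) = q + 1 + s by ring]
    rw [show 4 * n + s = 0 + s + 4 * n by ring, hH, sub_self] at h1
    linarith

theorem H_val (q : ℕ) (hq : q < 4 * n) :
    (uM n q : ℝ) * uM n q - uM n (q + 1) * uM n (q + (4 * n - 1))
      = 1 + (if q = 0 then (-2 : ℝ) else 0) + (if q = 2 * n then (4 * n - 2 : ℝ) else 0) := by
  have h4 : 0 < 4 * n := by omega
  rcases Nat.eq_zero_or_pos q with h0 | h0
  · subst h0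
    have e1 : uM n 0 = 0 := by unfold uM; simp
    have e2 : uM n (0 + 1) = 1 := by
      unfold uM
      rw [Nat.mod_eq_of_lt (by omega)]
      omega
    have e3 : uM n (0 + (4 * n - 1)) = 1 := by
      unfold uM
      rw [Nat.mod_eq_of_lt (by omega)]
      omega
    rw [e1, e2, e3, if_pos rfl, if_neg (by omega)]
    norm_num
  have e3 : uM n (q + (4 * n - 1)) = min (q - 1) (4 * n - (q - 1)) := by
    rw [show q + (4 * n - 1) = (q - 1) + 4 * n by omega, uM_per]
    unfold uM
    rw [Nat.mod_eq_of_lt (by omega)]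
  have e1 : uM n q = min q (4 * n - q) := by
    unfold uM
    rw [Nat.mod_eq_of_lt hq]
  have e2 : uM n (q + 1) = min (q + 1) (4 * n - (q + 1)) := by
    unfold uM
    rcases Nat.lt_or_ge (q + 1) (4 * n) with h | h
    · rw [Nat.mod_eq_of_lt h]
    · have : q + 1 = 4 * n := by omega
      rw [this, Nat.mod_self]
      omega
  rw [if_neg h0.ne']
  rcases lt_trichotomy q (2 * n) with h | h | h
  · have f1 : uM n q = q := by rw [e1]; omega
    have f2 : uM n (q + 1) = q + 1 := by rw [e2]; omega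
    have f3 : ((uM n (q + (4 * n - 1)) : ℕ) : ℝ) = (q : ℝ) - 1 := by
      have : uM n (q + (4 * n - 1)) + 1 = q := by rw [e3]; omega
      have h5 : ((uM n (q + (4 * n - 1)) + 1 : ℕ) : ℝ) = (q : ℝ) := by rw [this]
      push_cast at h5
      linarith
    rw [f3, f1, f2, if_neg h.ne]
    push_cast
    ring
  · have f1 : uM n q = 2 * n := by rw [e1]; omega
    have f2 : ((uM n (q + 1) : ℕ) : ℝ) = 2 * n - 1 := by
      have : uM n (q + 1) + 1 = 2 * n := by rw [e2]; omega
      have h5 : ((uM n (q + 1) + 1 : ℕ) : ℝ) = ((2 * n : ℕ) : ℝ) := by rw [this]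
      push_cast at h5
      linarith
    have f3 : ((uM n (q + (4 * n - 1)) : ℕ) : ℝ) = 2 * n - 1 := by
      have : uM n (q + (4 * n - 1)) + 1 = 2 * n := by rw [e3]; omega
      have h5 : ((uM n (q + (4 * n - 1)) + 1 : ℕ) : ℝ) = ((2 * n : ℕ) : ℝ) := by rw [this]
      push_cast at h5
      linarith
    rw [f3, f2, f1, if_pos h]
    push_cast
    ring
  · have f1 : ((uM n q : ℕ) : ℝ) = 4 * n - q := by
      have : uM n q + q = 4 * n := by rw [e1]; omega
      have h5 : ((uM n q + q : ℕ) : ℝ) = ((4 * n : ℕ) : ℝ) := by rw [this]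
      push_cast at h5
      linarith
    have f2 : ((uM n (q + 1) : ℕ) : ℝ) = 4 * n - q - 1 := by
      have : uM n (q + 1) + (q + 1) = 4 * n := by rw [e2]; omega
      have h5 : ((uM n (q + 1) + (q + 1) : ℕ) : ℝ) = ((4 * n : ℕ) : ℝ) := by rw [this]
      push_cast at h5
      linarith
    have f3 : ((uM n (q + (4 * n - 1)) : ℕ) : ℝ) = 4 * n - q + 1 := by
      have : uM n (q + (4 * n - 1)) + q = 4 * n + 1 := by rw [e3]; omega
      have h5 : ((uM n (q + (4 * n - 1)) + q : ℕ) : ℝ) = ((4 * n + 1 : ℕ) : ℝ) := by rw [this]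
      push_cast at h5
      linarith
    rw [f3, f2, f1, if_neg h.ne']
    ring

theorem H_sum : ∑ q ∈ range (4 * n),
    ((uM n q : ℝ) * uM n q - uM n (q + 1) * uM n (q + (4 * n - 1))) = 8 * n - 4 := by
  rw [Finset.sum_congr rfl fun q hq => H_val hn q (Finset.mem_range.1 hq),
    Finset.sum_add_distrib, Finset.sum_add_distrib, Finset.sum_ite_eq', Finset.sum_ite_eq',
    if_pos (Finset.mem_range.2 (by omega)), if_pos (Finset.mem_range.2 (by omega))]
  simp
  ring

theorem pp_u (i : ℕ) :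
    pp (fun t => rho ((i : ℝ) * (π / (2 * n)) - t))
      (fun t => rho (((i + 1 : ℕ) : ℝ) * (π / (2 * n)) - t)) (π / (2 * n)) (4 * n)
      = (π / (2 * n)) ^ 2 * (8 * n - 4) := by
  unfold pp dd
  have h1 : ∀ q ∈ range (4 * n),
      rho ((i : ℝ) * (π / (2 * n)) - (q : ℝ) * (π / (2 * n)))
        * rho (((i + 1 : ℕ) : ℝ) * (π / (2 * n)) - ((q + 1 : ℕ) : ℝ) * (π / (2 * n)))
      - rho ((i : ℝ) * (π / (2 * n)) - ((q + 1 : ℕ) : ℝ) * (π / (2 * n)))
        * rho (((i + 1 : ℕ) : ℝ) * (π / (2 * n)) - (q : ℝ) * (π / (2 * n)))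
      = (π / (2 * n)) ^ 2 * ((fun M : ℕ => (uM n M : ℝ) * uM n M
        - uM n (M + 1) * uM n (M + (4 * n - 1))) (q + (4 * n - 1) * i)) := by
    intro q _
    rw [u_at hn, u_at hn, u_at hn, u_at hn]
    have e1 : q + 1 + (4 * n - 1) * (i + 1) = q + (4 * n - 1) * i + 4 * n := by
      have : (4 * n - 1) * (i + 1) = (4 * n - 1) * i + (4 * n - 1) := by ring
      rw [this]
      omega
    have e2 : q + 1 + (4 * n - 1) * i = q + (4 * n - 1) * i + 1 := by ring
    have e3 : q + (4 * n - 1) * (i + 1) = q + (4 * n - 1) * i + (4 * n - 1) := by ring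
    rw [e1, e2, e3, uM_per]
    ring
  have h2 := sum_shift (fun M : ℕ => (uM n M : ℝ) * uM n M
        - uM n (M + 1) * uM n (M + (4 * n - 1))) (fun M => by
      rw [uM_per, show M + 4 * n + 1 = M + 1 + 4 * n by ring, uM_per,
        show M + 4 * n + (4 * n - 1) = M + (4 * n - 1) + 4 * n by omega, uM_per])
      ((4 * n - 1) * i)
  rw [Finset.sum_congr rfl h1, ← Finset.mul_sum, h2, H_sum hn]

end

end Pool.Agent.Q183.MDL
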