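import Pool.Agent.Q183.MDL.E

/-!
# The integral of the modality
-/

set_option autoImplicit false

open Finset Real MeasureTheory Filter Topology Set
open scoped ENNReal

namespace Pool.Agent.Q183.MDL

open Pool.Agent.H115R3.Filling Pool.Agent.W664.Fill

section

variable {M : Type} [MetricSpace M] (S : OrientedSurface M)

/-- The integral over the surface of the modality of a family of functions, with respect to the
Riemannian area. -/
noncomputable def modalityIntegral (f : AddCircle (2 * π) → M → ℝ) : ℝ≥0∞ :=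
  ∑ k, ∫⁻ p in Sq, (modality f (S.chart k p) : ℝ≥0∞) *
    ENNReal.ofReal √((S.metric k).E p * (S.metric k).G p - (S.metric k).F p ^ 2)

theorem flux_le (f : AddCircle (2 * π) → M → ℝ) (hf : ∀ θ x y, |f θ x - f θ y| ≤ dist x y)
    (hb : ∀ θ s, f θ (S.boundary s) = dist θ s) {n : ℕ} (hn : 0 < n) :
    ENNReal.ofReal (2 * π * (2 * π * (1 - 1 / (2 * n)))) ≤
      ENNReal.ofReal (2 * π) * modalityIntegral S f := by
  have hnr : (0 : ℝ) < n := by exact_mod_cast hn
  set δ : ℝ := π / (2 * n) with hδ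
  have hδ0 : 0 < δ := by positivity
  have hm : ((4 * n : ℕ) : ℝ) * δ = 2 * π := by
    rw [hδ]
    push_cast
    field_simp
    ring
  have hbd : ∀ (i : ℕ) (t : ℝ), f (((i : ℝ) * δ : ℝ) : AddCircle (2 * π))
      (S.boundary (t : AddCircle (2 * π))) = rho ((i : ℝ) * δ - t) := by
    intro i t
    rw [hb, dist_eq_rho]
  have hlip : ∀ (i : ℕ) (s t : ℝ), |rho ((i : ℝ) * δ - s) - rho ((i : ℝ) * δ - t)|
      ≤ 1 * |s - t| := by
    intro i s t
    rw [one_mul]
    refine (rho_sub_le _ _).trans (le_of_eq ?_)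
    rw [show (i : ℝ) * δ - s - ((i : ℝ) * δ - t) = -(s - t) by ring, abs_neg]
  have h1 := cal_e S (range (4 * n)) (fun _ => (1 : ℝ))
    (fun i => f (((i : ℝ) * δ : ℝ) : AddCircle (2 * π)))
    (fun i => f ((((i + 1 : ℕ) : ℝ) * δ : ℝ) : AddCircle (2 * π)))
    (fun i => hf _) (fun i => hf _)
    (∑ i ∈ range (4 * n), 1 * (pp (fun t => rho ((i : ℝ) * δ - t))
      (fun t => rho (((i + 1 : ℕ) : ℝ) * δ - t)) δ (4 * n) / 2)) (by
      apply tendsto_finsetSum
      intro i _
      apply Tendsto.const_mul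
      apply Tendsto.div_const
      simp only [hbd]
      exact tendsto_loopSum S.brk S.brk_strictMono S.brk_zero hδ0 (4 * n)
        (by rw [S.brk_last, hm]) (pwAff_u hn _) (pwAff_u hn _) (zero_le_one) (hlip _) (hlip _))
  have hL : ∑ i ∈ range (4 * n), 1 * (pp (fun t => rho ((i : ℝ) * δ - t))
      (fun t => rho (((i + 1 : ℕ) : ℝ) * δ - t)) δ (4 * n) / 2)
      = 2 * π * (2 * π * (1 - 1 / (2 * n))) := by
    rw [Finset.sum_congr rfl fun i _ => by rw [hδ, pp_u hn i], Finset.sum_const,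
      Finset.card_range, nsmul_eq_mul]
    push_cast
    field_simp
    ring
  rw [hL] at h1
  refine h1.trans ?_
  unfold modalityIntegral
  rw [Finset.mul_sum]
  apply Finset.sum_le_sum
  intro k _
  rw [← lintegral_const_mul' _ _ ENNReal.ofReal_ne_top]
  refine le_trans ?_ (lintegral_mono_set Sqo_sub)
  apply lintegral_mono_ae
  have hd1 : ∀ᵐ x ∂(volume.restrict Sqo), ∀ i : ℕ, DifferentiableAt ℝ
      (fun p => f (((i : ℝ) * δ : ℝ) : AddCircle (2 * π)) (S.chart k p)) x := by
    rw [ae_all_iff]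
    intro i
    exact (segLip_of S _ (hf _) k).ae_diff
  filter_upwards [hd1, self_mem_ae_restrict isOpen_Sqo.measurableSet] with x hx1 hxo
  refine (local_le S f hf k hxo (4 * n) hδ0 hm hx1).trans (le_of_eq ?_)
  ring

theorem main (f : AddCircle (2 * π) → M → ℝ) (hf : ∀ θ x y, |f θ x - f θ y| ≤ dist x y)
    (hb : ∀ θ s, f θ (S.boundary s) = dist θ s) :
    ENNReal.ofReal (2 * π) ≤ modalityIntegral S f := by
  have h1 : ∀ n : ℕ, ENNReal.ofReal (2 * π * (1 - 1 / (2 * ((n + 1 : ℕ) : ℝ))))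
      ≤ modalityIntegral S f := by
    intro n
    have h2 := flux_le S f hf hb (Nat.succ_pos n)
    rw [ENNReal.ofReal_mul (by positivity)] at h2
    have h3 : 0 < ENNReal.ofReal (2 * π) := ENNReal.ofReal_pos.2 (by positivity)
    exact (ENNReal.mul_le_mul_iff_right h3.ne' ENNReal.ofReal_ne_top).1 h2
  have h2 : Tendsto (fun n : ℕ => ENNReal.ofReal (2 * π * (1 - 1 / (2 * ((n + 1 : ℕ) : ℝ)))))
      atTop (𝓝 (ENNReal.ofReal (2 * π))) := by
    apply ENNReal.tendsto_ofReal
    have h3 : Tendsto (fun n : ℕ => 2 * π * (1 - 1 / 2 * (1 / ((n : ℝ) + 1)))) atTop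
        (𝓝 (2 * π * (1 - 1 / 2 * 0))) :=
      ((tendsto_one_div_add_atTop_nhds_zero_nat.const_mul (1 / 2)).const_sub 1).const_mul (2 * π)
    rw [mul_zero, sub_zero, mul_one] at h3
    refine h3.congr fun n => ?_
    push_cast
    field_simp
  exact le_of_tendsto' h2 h1

end

end Pool.Agent.Q183.MDL
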